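import Mathlib

/-!
# MP_81f94f_an: not every sequence with (i)-(iv) is a sequence of norms of powers

We prove the negated form of Q1 for both choices of the algebra.  There is a sequence
`(ω_n)` of positive numbers satisfying (i), (ii), (iii), (iv) which is not of the form
`(‖a^n‖)` with `a ∈ M(0,1)`, and not of the form `(‖f^n‖)` with `f ∈ L^1[0,1]`.

The sequence is `ω_n = r_n ^ n` with `r_n = 1 / (⌊log_4 n⌋ + 1)`, so that `ω_2 = ω_1 ^ 2` and
`ω_{2n} = ω_n ^ 2` for `n = 4 ^ k`.

Idea of the proof.  If `‖b * b‖ = ‖b‖ ^ 2` then `|b|` lives on `(0, 1/2)`.  So `a` and the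
truncated power `b` of `a` of order `n = 4 ^ k` live on `(0, 1/2)`.  Let `F, B, C` be the Laplace
transforms of `a`, of `b` and of the part of the untruncated power on `[1, ∞)`.  Then
`F ^ n = B + C`, and `F B' - n B F' = n C F' - F C'` is `O(exp (-Re z))` in the whole plane, hence
it vanishes by the theorem of Liouville.  It follows that `C = 0`, so `|F| ^ n = |B| ≤ ω_n` on the
imaginary axis.  As `ω_n ^ (1/n) → 0` this gives `F = 0` and `a = 0`.
-/

open MeasureTheory Set Filter Topology
open scoped ENNReal NNReal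

namespace Pool.Agent.Results.MP_81f94f_an.FlatRunsNotNormSequence

noncomputable section

/-! ### The objects of the problem -/

/-- Truncated convolution of complex Borel measures: the restriction to `(0,1)` of the image of
the product (complex) measure `μ × ν` under `(s, t) ↦ s + t`, i.e.
`(μ * ν) E = (μ × ν) {(s, t) | s + t ∈ E}` for Borel sets `E ⊆ (0,1)`. -/
def truncConv (μ ν : ComplexMeasure ℝ) : ComplexMeasure ℝ :=
  ((μ.prod ν (ContinuousLinearMap.mul ℝ ℂ)).map (fun p : ℝ × ℝ => p.1 + p.2)).restrict (Ioo 0 1)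

/-- The powers `a^n`, `n ≥ 1`, for the truncated convolution of measures
(the value for `n = 0` plays no role). -/
def measPow (a : ComplexMeasure ℝ) : ℕ → ComplexMeasure ℝ
  | 0 => 0
  | 1 => a
  | (n + 2) => truncConv a (measPow a (n + 1))

/-- Truncated convolution of functions, `(f * g) t = ∫_0^t f (t - s) g s ds`. -/
def funConv (f g : ℝ → ℂ) (t : ℝ) : ℂ := ∫ s in (0 : ℝ)..t, f (t - s) * g s

/-- The powers `f^n`, `n ≥ 1`, for the truncated convolution of functions
(the value for `n = 0` plays no role). -/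
def funPow (f : ℝ → ℂ) : ℕ → ℝ → ℂ
  | 0 => 0
  | 1 => f
  | (n + 2) => funConv f (funPow f (n + 1))

/-- `ω` is the sequence `(‖a^n‖)_{n ≥ 1}` of an element `a` of `M(0,1)`: `a` is a complex Borel
measure concentrated on `(0,1)`, and `‖·‖` is the total variation. -/
def IsNormSeqMeasure (ω : ℕ → ℝ) : Prop :=
  ∃ a : ComplexMeasure ℝ, a.restrict (Ioo 0 1) = a ∧
    ∀ n, 1 ≤ n → (measPow a n).variation univ = ENNReal.ofReal (ω n)

/-- `ω` is the sequence `(‖f^n‖)_{n ≥ 1}` of an element `f` of `L^1[0,1]`. -/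
def IsNormSeqL1 (ω : ℕ → ℝ) : Prop :=
  ∃ f : ℝ → ℂ, IntegrableOn f (Icc 0 1) ∧
    ∀ n, 1 ≤ n → ∫ t in (0 : ℝ)..1, ‖funPow f n t‖ = ω n

/-- Sanity check: the defining formula of the truncated convolution of measures. -/
lemma truncConv_apply (μ ν : ComplexMeasure ℝ) {E : Set ℝ} (hE : MeasurableSet E)
    (hE1 : E ⊆ Ioo 0 1) :
    truncConv μ ν E = (μ.prod ν (ContinuousLinearMap.mul ℝ ℂ)) {p : ℝ × ℝ | p.1 + p.2 ∈ E} := by
  have hadd : Measurable (fun p : ℝ × ℝ => p.1 + p.2) := by fun_prop
  rw [truncConv, VectorMeasure.restrict_apply _ measurableSet_Ioo hE, inter_eq_left.2 hE1,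
    VectorMeasure.map_apply _ hadd hE]
  rfl

/-! ### Complex measures and Laplace transforms -/

abbrev mulC : ℂ →L[ℝ] ℂ →L[ℝ] ℂ := ContinuousLinearMap.mul ℝ ℂ



variable {X : Type*} [MeasurableSpace X]

lemma rep (c : ComplexMeasure X) [IsFiniteMeasure c.variation] :
    ∃ h : X → ℂ, Integrable h c.variation ∧ c.variation.withDensityᵥ h = c := by
  refine ⟨c.rnDeriv c.variation, c.integrable_rnDeriv _, ?_⟩
  have key : ∀ i, c.variation i = 0 → c i = 0 := fun i hi => by
    have := VectorMeasure.enorm_measure_le_variation c i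
    rw [hi] at this
    simpa using this
  have hre : (ComplexMeasure.re c) ≪ᵥ c.variation.toENNRealVectorMeasure := by
    refine VectorMeasure.AbsolutelyContinuous.mk fun i hi h0 => ?_
    rw [Measure.toENNRealVectorMeasure_apply_measurable hi] at h0
    change (c i).re = 0
    simp [key i h0]
  have him : (ComplexMeasure.im c) ≪ᵥ c.variation.toENNRealVectorMeasure := by
    refine VectorMeasure.AbsolutelyContinuous.mk fun i hi h0 => ?_
    rw [Measure.toENNRealVectorMeasure_apply_measurable hi] at h0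
    change (c i).im = 0
    simp [key i h0]
  set μ := c.variation with hμ
  conv_rhs => rw [← c.toComplexMeasure_to_signedMeasure]
  ext i hi : 1
  rw [SignedMeasure.toComplexMeasure_apply]
  apply Complex.ext
  · rw [withDensityᵥ_apply (c.integrable_rnDeriv μ) hi, ← RCLike.re_eq_complex_re,
      ← integral_re (c.integrable_rnDeriv μ).integrableOn, RCLike.re_eq_complex_re,
      ← withDensityᵥ_apply _ hi]
    · change (μ.withDensityᵥ ((ComplexMeasure.re c).rnDeriv μ)) i = _
      rw [SignedMeasure.withDensityᵥ_rnDeriv_eq _ _ hre]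
    · exact SignedMeasure.integrable_rnDeriv _ _
  · rw [withDensityᵥ_apply (c.integrable_rnDeriv μ) hi, ← RCLike.im_eq_complex_im,
      ← integral_im (c.integrable_rnDeriv μ).integrableOn, RCLike.im_eq_complex_im,
      ← withDensityᵥ_apply _ hi]
    · change (μ.withDensityᵥ ((ComplexMeasure.im c).rnDeriv μ)) i = _
      rw [SignedMeasure.withDensityᵥ_rnDeriv_eq _ _ him]
    · exact SignedMeasure.integrable_rnDeriv _ _

/-- the variation density has norm one -/
lemma rep_norm (c : ComplexMeasure X) [IsFiniteMeasure c.variation] :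
    ∃ h : X → ℂ, Integrable h c.variation ∧ c.variation.withDensityᵥ h = c ∧
      ∀ᵐ x ∂c.variation, ‖h x‖ = 1 := by
  obtain ⟨h, hi, he⟩ := rep c
  refine ⟨h, hi, he, ?_⟩
  have h1 : c.variation.withDensity (fun x => ‖h x‖ₑ) = c.variation.withDensity 1 := by
    rw [← Measure.variation_withDensityᵥ hi, he, withDensity_one]
  have h2 := (withDensity_eq_iff (μ := c.variation) (f := fun x => ‖h x‖ₑ) (g := 1)
    hi.aestronglyMeasurable.enorm (by fun_prop) (by simpa using! hi.2.ne)).1 h1
  filter_upwards [h2] with x hx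
  have hx' : ‖h x‖ₑ = 1 := hx
  have := congrArg ENNReal.toReal hx'
  simpa using this

lemma integral_unimod {m : Measure X} {H : X → ℂ} (hH : Integrable H m)
    (h1 : ∀ᵐ x ∂m, ‖H x‖ = 1) {g : X → ℂ} (hg : Integrable g m) :
    ∫ᵛ x, g x ∂[mulC; m.withDensityᵥ H] = ∫ x, g x * H x ∂m := by
  have hv : (m.withDensityᵥ H).variation = m := by
    rw [Measure.variation_withDensityᵥ hH]
    conv_rhs => rw [← withDensity_one (μ := m)]
    apply withDensity_congr_ae
    filter_upwards [h1] with x hx
    rw [← ofReal_norm, hx]; simp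
  have hmulint : ∀ {g : X → ℂ}, Integrable g m → Integrable (fun x => g x * H x) m := by
    intro g hg
    refine hg.mono (hg.aestronglyMeasurable.mul hH.aestronglyMeasurable) ?_
    filter_upwards [h1] with x hx
    rw [norm_mul, hx, mul_one]
  have hcont : Continuous fun f : X →₁[m] ℂ => ∫ x, f x * H x ∂m := by
    apply LipschitzWith.continuous (K := 1)
    apply LipschitzWith.of_dist_le_mul
    intro f g
    rw [dist_eq_norm, dist_eq_norm, ← integral_sub (hmulint (L1.integrable_coeFn f))
      (hmulint (L1.integrable_coeFn g)), L1.norm_eq_integral_norm]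
    simp only [NNReal.coe_one, one_mul]
    refine (norm_integral_le_integral_norm _).trans (le_of_eq ?_)
    apply integral_congr_ae
    filter_upwards [Lp.coeFn_sub f g, h1] with x hx hx1
    rw [hx, ← sub_mul, norm_mul, hx1, mul_one]; rfl
  have hcont2 : Continuous fun f : X →₁[m] ℂ => ∫ᵛ x, f x ∂[mulC; m.withDensityᵥ H] := by
    have := VectorMeasure.continuous_integral (μ := m.withDensityᵥ H) (B := mulC)
    rw [hv] at this
    exact this
  refine Integrable.induction (μ := m)
    (fun g => ∫ᵛ x, g x ∂[mulC; m.withDensityᵥ H] = ∫ x, g x * H x ∂m) ?_ ?_ ?_ ?_ hg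
  · intro c s hs hfin
    have hfr : IsFiniteMeasure ((m.withDensityᵥ H).variation.restrict s) := by
      rw [hv]; exact ⟨by simpa using hfin⟩
    rw [VectorMeasure.integral_indicator_const _ hs, withDensityᵥ_apply hH hs]
    have : (fun x => s.indicator (fun _ => c) x * H x) = s.indicator (fun x => c * H x) := by
      ext x; by_cases hx : x ∈ s <;> simp [hx]
    rw [this, integral_indicator hs, integral_const_mul]
    rfl
  · intro f g hd hf hg ihf ihg
    rw [VectorMeasure.integral_add (by simpa [VectorMeasure.Integrable, hv] using hf)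
      (by simpa [VectorMeasure.Integrable, hv] using hg), ihf, ihg,
      ← integral_add (hmulint hf) (hmulint hg)]
    simp [add_mul]
  · exact isClosed_eq hcont2 hcont
  · intro f g hfg hf ih
    rw [← VectorMeasure.integral_congr_ae (f := f) (g := g) (by rw [hv]; exact hfg), ih]
    apply integral_congr_ae
    filter_upwards [hfg] with x hx
    rw [hx]

/-- untruncated convolution of two complex measures -/
def fconv (μ ν : ComplexMeasure ℝ) : ComplexMeasure ℝ :=
  (μ.prod ν mulC).map (fun p : ℝ × ℝ => p.1 + p.2)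

lemma enorm_mulC : ‖mulC‖ₑ = 1 := by
  rw [← ofReal_norm, ContinuousLinearMap.opNorm_mul]; simp

lemma variation_prod_le' (μ ν : ComplexMeasure ℝ) [IsFiniteMeasure μ.variation]
    [IsFiniteMeasure ν.variation] :
    (μ.prod ν mulC).variation ≤ μ.variation.prod ν.variation := by
  refine VectorMeasure.variation_prod_le.trans ?_
  rw [enorm_mulC, one_smul]

lemma variation_fconv_le (μ ν : ComplexMeasure ℝ) [IsFiniteMeasure μ.variation]
    [IsFiniteMeasure ν.variation] :
    (fconv μ ν).variation ≤ (μ.variation.prod ν.variation).map (fun p : ℝ × ℝ => p.1 + p.2) := by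
  refine VectorMeasure.variation_map_le.trans ?_
  exact Measure.map_mono (variation_prod_le' μ ν) (by fun_prop)

lemma variation_fconv_apply_le (μ ν : ComplexMeasure ℝ) [IsFiniteMeasure μ.variation]
    [IsFiniteMeasure ν.variation] {s : Set ℝ} (hs : MeasurableSet s) :
    (fconv μ ν).variation s ≤ (μ.variation.prod ν.variation) ((fun p : ℝ × ℝ => p.1 + p.2) ⁻¹' s) := by
  refine (variation_fconv_le μ ν s).trans ?_
  rw [Measure.map_apply (by fun_prop) hs]

instance (μ ν : ComplexMeasure ℝ) [IsFiniteMeasure μ.variation]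
    [IsFiniteMeasure ν.variation] : IsFiniteMeasure (fconv μ ν).variation := by
  unfold fconv; infer_instance

lemma fconv_add_left (μ μ' ν : ComplexMeasure ℝ) [IsFiniteMeasure μ.variation]
    [IsFiniteMeasure μ'.variation] :
    fconv (μ + μ') ν = fconv μ ν + fconv μ' ν := by
  unfold fconv
  rw [← VectorMeasure.map_add]
  congr 1
  apply VectorMeasure.prod_eq_of_forall_apply_prod
  intro s t hs ht
  simp

lemma fconv_add_right (μ ν ν' : ComplexMeasure ℝ) [IsFiniteMeasure ν.variation]
    [IsFiniteMeasure ν'.variation] :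
    fconv μ (ν + ν') = fconv μ ν + fconv μ ν' := by
  unfold fconv
  rw [← VectorMeasure.map_add]
  congr 1
  apply VectorMeasure.prod_eq_of_forall_apply_prod
  intro s t hs ht
  simp [mul_add]

lemma truncConv_eq_restrict (μ ν : ComplexMeasure ℝ) :
    truncConv μ ν = (fconv μ ν).restrict (Ioo 0 1) := rfl

def fullPow (a : ComplexMeasure ℝ) : ℕ → ComplexMeasure ℝ
  | 0 => a
  | (n + 1) => fconv a (fullPow a n)

instance fullPow_fin (a : ComplexMeasure ℝ) [IsFiniteMeasure a.variation] (n : ℕ) :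
    IsFiniteMeasure (fullPow a n).variation := by
  induction n with
  | zero => unfold fullPow; infer_instance
  | succ n ih => unfold fullPow; infer_instance

/-- concentration on `(0,1)` -/
lemma conc_of_restrict {a : ComplexMeasure ℝ} (ha : a.restrict (Ioo 0 1) = a) :
    a.variation (Ioo 0 1)ᶜ = 0 := by
  rw [← ha, VectorMeasure.variation_restrict measurableSet_Ioo,
    Measure.restrict_apply measurableSet_Ioo.compl]
  simp

lemma restrict_eq_zero_of {c : ComplexMeasure ℝ} {s : Set ℝ} (hs : MeasurableSet s)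
    (h : c.variation s = 0) : c.restrict s = 0 := by
  rw [← VectorMeasure.variation_eq_zero, VectorMeasure.variation_restrict hs]
  exact Measure.restrict_eq_zero.2 h

lemma fullPow_conc {a : ComplexMeasure ℝ} [IsFiniteMeasure a.variation]
    (ha : a.variation (Ioo 0 1)ᶜ = 0) (n : ℕ) :
    (fullPow a n).variation (Ioo 0 ((n : ℝ) + 1))ᶜ = 0 := by
  induction n with
  | zero => simpa [fullPow] using ha
  | succ n ih =>
    rw [← nonpos_iff_eq_zero]
    refine (variation_fconv_apply_le _ _ measurableSet_Ioo.compl).trans ?_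
    have : (fun p : ℝ × ℝ => p.1 + p.2) ⁻¹' (Ioo 0 (((n + 1 : ℕ) : ℝ) + 1))ᶜ ⊆
        ((Ioo 0 1)ᶜ ×ˢ univ) ∪ (univ ×ˢ (Ioo 0 ((n : ℝ) + 1))ᶜ) := by
      intro p hp
      by_contra hc
      simp only [mem_union, mem_prod, mem_univ, and_true, true_and, not_or, mem_compl_iff,
        not_not, mem_Ioo] at hc
      apply hp
      simp only [mem_Ioo]
      push_cast
      constructor <;> linarith [hc.1.1, hc.1.2, hc.2.1, hc.2.2]
    refine (measure_mono this).trans ((measure_union_le _ _).trans ?_)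
    rw [Measure.prod_prod, Measure.prod_prod, ha, ih]
    simp

lemma fconv_restrict_zero (a R : ComplexMeasure ℝ) [IsFiniteMeasure a.variation]
    [IsFiniteMeasure R.variation] (ha : a.variation (Iic 0) = 0) (hR : R.variation (Iio 1) = 0) :
    (fconv a R).restrict (Ioo 0 1) = 0 := by
  apply restrict_eq_zero_of measurableSet_Ioo
  rw [← nonpos_iff_eq_zero]
  refine (variation_fconv_apply_le _ _ measurableSet_Ioo).trans ?_
  have : (fun p : ℝ × ℝ => p.1 + p.2) ⁻¹' (Ioo 0 1) ⊆
      ((Iic 0) ×ˢ univ) ∪ (univ ×ˢ (Iio 1)) := by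
    intro p hp
    by_contra hc
    simp only [mem_union, mem_prod, mem_univ, and_true, true_and, not_or, mem_Iic, mem_Iio,
      not_le, not_lt] at hc
    have := hp.2
    simp only at this
    linarith [hc.1, hc.2]
  refine (measure_mono this).trans ((measure_union_le _ _).trans ?_)
  rw [Measure.prod_prod, Measure.prod_prod, ha, hR]
  simp

lemma prod_rep {μ ν : ComplexMeasure ℝ} [IsFiniteMeasure μ.variation]
    [IsFiniteMeasure ν.variation] {h k : ℝ → ℂ} (hh : Integrable h μ.variation)
    (hμ : μ.variation.withDensityᵥ h = μ) (hk : Integrable k ν.variation)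
    (hν : ν.variation.withDensityᵥ k = ν) :
    μ.prod ν mulC = (μ.variation.prod ν.variation).withDensityᵥ (fun p => h p.1 * k p.2) := by
  apply VectorMeasure.prod_eq_of_forall_apply_prod
  intro s t hs ht
  rw [withDensityᵥ_apply (hh.mul_prod hk) (hs.prod ht), setIntegral_prod_mul,
    ← withDensityᵥ_apply hh hs, ← withDensityᵥ_apply hk ht, hμ, hν]
  rfl

lemma integral_fconv {μ ν : ComplexMeasure ℝ} [IsFiniteMeasure μ.variation]
    [IsFiniteMeasure ν.variation] {e : ℝ → ℂ} (hem : Measurable e)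
    (hadd : ∀ s t, e (s + t) = e s * e t)
    (h1 : Integrable e μ.variation) (h2 : Integrable e ν.variation) :
    ∫ᵛ x, e x ∂[mulC; fconv μ ν] = (∫ᵛ x, e x ∂[mulC; μ]) * (∫ᵛ x, e x ∂[mulC; ν]) := by
  obtain ⟨h, hh, hμ, hn⟩ := rep_norm μ
  obtain ⟨k, hk, hν, kn⟩ := rep_norm ν
  have hP := prod_rep hh hμ hk hν
  have hn2 : ∀ᵐ p ∂(μ.variation.prod ν.variation), ‖h p.1 * k p.2‖ = 1 := by
    filter_upwards [Measure.quasiMeasurePreserving_fst.ae hn,
      Measure.quasiMeasurePreserving_snd.ae kn] with p h1 h2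
    rw [norm_mul, h1, h2, mul_one]
  have hPv := variation_prod_le' μ ν
  have hint : Integrable (fun p : ℝ × ℝ => e (p.1 + p.2)) (μ.variation.prod ν.variation) := by
    simp_rw [hadd]
    exact h1.mul_prod h2
  rw [fconv, VectorMeasure.integral_map (by fun_prop) hem.aestronglyMeasurable
    (hint.mono_measure hPv), hP, integral_unimod (hh.mul_prod hk) hn2 hint]
  conv_rhs => rw [← hμ, ← hν]
  rw [integral_unimod hh hn h1, integral_unimod hk kn h2, ← integral_prod_mul]
  apply integral_congr_ae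
  filter_upwards with p
  rw [hadd]; ring


lemma fconv_restrict_zero' (a R : ComplexMeasure ℝ) [IsFiniteMeasure a.variation]
    [IsFiniteMeasure R.variation] (ha : a.variation (Iio 1) = 0) (hR : R.variation (Iic 0) = 0) :
    (fconv a R).restrict (Ioo 0 1) = 0 := by
  apply restrict_eq_zero_of measurableSet_Ioo
  rw [← nonpos_iff_eq_zero]
  refine (variation_fconv_apply_le _ _ measurableSet_Ioo).trans ?_
  have : (fun p : ℝ × ℝ => p.1 + p.2) ⁻¹' (Ioo 0 1) ⊆
      ((Iio 1) ×ˢ univ) ∪ (univ ×ˢ (Iic 0)) := by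
    intro p hp
    by_contra hc
    simp only [mem_union, mem_prod, mem_univ, and_true, true_and, not_or, mem_Iic, mem_Iio,
      not_le, not_lt] at hc
    have := hp.2
    simp only at this
    linarith [hc.1, hc.2]
  refine (measure_mono this).trans ((measure_union_le _ _).trans ?_)
  rw [Measure.prod_prod, Measure.prod_prod, ha, hR]
  simp

lemma restrict_add_split {a : ComplexMeasure ℝ} (h0 : a.variation (Iic 0) = 0) :
    a = a.restrict (Ioo 0 1) + a.restrict (Ici 1) := by
  have h1 : a.restrict (Iic 0) = 0 := restrict_eq_zero_of measurableSet_Iic h0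
  ext i hi
  simp only [add_apply, VectorMeasure.restrict_apply _ measurableSet_Ioo hi,
    VectorMeasure.restrict_apply _ measurableSet_Ici hi]
  have h2 : a (i ∩ Iic 0) = 0 := by
    rw [← VectorMeasure.restrict_apply _ measurableSet_Iic hi, h1]; rfl
  have h3 : i = (i ∩ Iic 0) ∪ ((i ∩ Ioo 0 1) ∪ (i ∩ Ici 1)) := by
    ext x
    simp only [mem_union, mem_inter_iff, mem_Iic, mem_Ioo, mem_Ici]
    constructor
    · intro hx
      rcases le_or_gt x 0 with h | h
      · exact Or.inl ⟨hx, h⟩
      · rcases lt_or_ge x 1 with h' | h'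
        · exact Or.inr (Or.inl ⟨hx, h, h'⟩)
        · exact Or.inr (Or.inr ⟨hx, h'⟩)
    · tauto
  conv_lhs => rw [h3]
  rw [VectorMeasure.of_union, VectorMeasure.of_union, h2, zero_add]
  · rw [Set.disjoint_left]; intro x hx hx'; exact absurd hx.2.2 (not_lt.2 hx'.2)
  · exact hi.inter measurableSet_Ioo
  · exact hi.inter measurableSet_Ici
  · rw [Set.disjoint_left]; intro x hx hx'
    rcases hx' with h | h
    · exact absurd hx.2 (not_le.2 h.2.1)
    · have := hx.2; have := h.2; simp only [mem_Iic, mem_Ici] at *; linarith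
  · exact hi.inter measurableSet_Iic
  · exact (hi.inter measurableSet_Ioo).union (hi.inter measurableSet_Ici)

lemma var_Iic_zero {c : ComplexMeasure ℝ} {R : ℝ} (h : c.variation (Ioo 0 R)ᶜ = 0) :
    c.variation (Iic 0) = 0 :=
  measure_mono_null (s := Iic 0) (t := (Ioo 0 R)ᶜ)
    (fun x hx => by
      simp only [mem_compl_iff, mem_Ioo, not_and, not_lt]
      intro h1; exact absurd h1 (not_lt.2 hx)) h

lemma var_restrict_Ici (c : ComplexMeasure ℝ) : (c.restrict (Ici 1)).variation (Iio 1) = 0 := by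
  rw [VectorMeasure.variation_restrict measurableSet_Ici, Measure.restrict_apply measurableSet_Iio]
  convert measure_empty (μ := c.variation)
  ext x; simp

lemma measPow_eq {a : ComplexMeasure ℝ} [IsFiniteMeasure a.variation]
    (ha : a.restrict (Ioo 0 1) = a) (n : ℕ) :
    measPow a (n + 1) = (fullPow a n).restrict (Ioo 0 1) := by
  have hc := conc_of_restrict ha
  induction n with
  | zero => simp [measPow, fullPow, ha]
  | succ n ih =>
    have h1 := fullPow_conc hc n
    have h2 := restrict_add_split (var_Iic_zero h1)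
    change truncConv a (measPow a (n + 1)) = (fconv a (fullPow a n)).restrict (Ioo 0 1)
    conv_rhs => rw [h2]
    rw [fconv_add_right, VectorMeasure.restrict_add, ← ih,
      fconv_restrict_zero a _ (var_Iic_zero hc) (var_restrict_Ici _), add_zero]
    rfl

/-- Laplace transform of a complex measure -/
def LC (c : ComplexMeasure ℝ) (z : ℂ) : ℂ := ∫ᵛ t, Complex.exp (-z * t) ∂[mulC; c]

lemma exp_integrable {m : Measure ℝ} [IsFiniteMeasure m] {R : ℝ} (h : m (Ioo 0 R)ᶜ = 0) (z : ℂ) :
    Integrable (fun t : ℝ => Complex.exp (-z * t)) m := by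
  refine Integrable.of_bound (by fun_prop) (Real.exp (|z.re| * |R|)) ?_
  have h2 : ∀ᵐ t ∂m, t ∈ Ioo 0 R := by
    rw [ae_iff]; exact h
  filter_upwards [h2] with t ht
  rw [Complex.norm_exp]
  apply Real.exp_le_exp.2
  have : (-z * (t : ℂ)).re = -z.re * t := by simp
  rw [this]
  calc -z.re * t ≤ |(-z.re) * t| := le_abs_self _
    _ = |z.re| * |t| := by rw [abs_mul, abs_neg]
    _ ≤ |z.re| * |R| := by
      apply mul_le_mul_of_nonneg_left _ (abs_nonneg _)
      rw [abs_of_pos ht.1, abs_of_pos (ht.1.trans ht.2)]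
      exact ht.2.le

lemma LC_fconv {μ ν : ComplexMeasure ℝ} [IsFiniteMeasure μ.variation]
    [IsFiniteMeasure ν.variation] {R S : ℝ} (hμ : μ.variation (Ioo 0 R)ᶜ = 0)
    (hν : ν.variation (Ioo 0 S)ᶜ = 0) (z : ℂ) :
    LC (fconv μ ν) z = LC μ z * LC ν z := by
  unfold LC
  apply integral_fconv (by fun_prop) _ (exp_integrable hμ z) (exp_integrable hν z)
  intro s t
  rw [← Complex.exp_add]; push_cast; ring_nf

lemma LC_fullPow {a : ComplexMeasure ℝ} [IsFiniteMeasure a.variation]
    (ha : a.variation (Ioo 0 1)ᶜ = 0) (n : ℕ) (z : ℂ) :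
    LC (fullPow a n) z = (LC a z) ^ (n + 1) := by
  induction n with
  | zero => simp [fullPow]
  | succ n ih =>
    rw [fullPow, LC_fconv ha (fullPow_conc ha n), ih]; ring



lemma real_uniq {m : Measure ℝ} [IsFiniteMeasure m] {u : ℝ → ℝ} (hu : Integrable u m)
    (h : ∀ ξ : ℝ, ∫ t, Complex.exp (ξ * t * Complex.I) * (u t : ℂ) ∂m = 0) : u =ᵐ[m] 0 := by
  have hu' : Integrable (fun t => -u t) m := hu.neg
  have fin1 : IsFiniteMeasure (m.withDensity (fun t => ENNReal.ofReal (u t))) :=
    isFiniteMeasure_withDensity_ofReal hu.2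
  have fin2 : IsFiniteMeasure (m.withDensity (fun t => ENNReal.ofReal (-u t))) :=
    isFiniteMeasure_withDensity_ofReal hu'.2
  have key : m.withDensity (fun t => ENNReal.ofReal (u t)) =
      m.withDensity (fun t => ENNReal.ofReal (-u t)) := by
    apply Measure.ext_of_charFun
    ext ξ
    have aux : ∀ {w : ℝ → ℝ}, Integrable w m →
        charFun (m.withDensity (fun t => ENNReal.ofReal (w t))) ξ =
        ∫ t, Complex.exp (ξ * t * Complex.I) * ((max (w t) 0 : ℝ) : ℂ) ∂m := by
      intro w hw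
      rw [charFun_apply_real]
      rw [integral_withDensity_eq_integral_toReal_smul₀ hw.aestronglyMeasurable.aemeasurable.ennreal_ofReal
        (by filter_upwards with x using ENNReal.ofReal_lt_top)]
      apply integral_congr_ae
      filter_upwards with t
      rw [ENNReal.toReal_ofReal', Complex.real_smul]; ring
    rw [aux hu, aux hu', ← sub_eq_zero, ← integral_sub]
    · rw [← h ξ]
      apply integral_congr_ae
      filter_upwards with t
      rw [← mul_sub]
      congr 1
      rw [← Complex.ofReal_sub]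
      congr 1
      rcases le_total 0 (u t) with h0 | h0
      · rw [max_eq_left h0, max_eq_right (by linarith)]; ring
      · rw [max_eq_right h0, max_eq_left (by linarith)]; ring
    · refine (hu.pos_part.ofReal).bdd_mul (c := 1) (by fun_prop) ?_
      filter_upwards with t
      rw [show (ξ : ℂ) * t * Complex.I = ((ξ * t : ℝ) : ℂ) * Complex.I by push_cast; ring,
        Complex.norm_exp_ofReal_mul_I]
    · refine (hu'.pos_part.ofReal).bdd_mul (c := 1) (by fun_prop) ?_
      filter_upwards with t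
      rw [show (ξ : ℂ) * t * Complex.I = ((ξ * t : ℝ) : ℂ) * Complex.I by push_cast; ring,
        Complex.norm_exp_ofReal_mul_I]
  have h3 := (withDensity_eq_iff hu.aestronglyMeasurable.aemeasurable.ennreal_ofReal
    hu'.aestronglyMeasurable.aemeasurable.ennreal_ofReal (by
      have := hu.2
      have h4 := fin1.measure_univ_lt_top
      rw [withDensity_apply _ MeasurableSet.univ] at h4
      simpa using! h4.ne)).1 key
  filter_upwards [h3] with t ht
  rcases le_total 0 (u t) with h0 | h0
  · rw [ENNReal.ofReal_of_nonpos (show -u t ≤ 0 by linarith)] at ht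
    have := ENNReal.ofReal_eq_zero.1 ht
    exact le_antisymm this h0
  · rw [ENNReal.ofReal_of_nonpos h0] at ht
    have := ENNReal.ofReal_eq_zero.1 ht.symm
    simp only [Pi.zero_apply]
    linarith

lemma complex_uniq {m : Measure ℝ} [IsFiniteMeasure m] {h : ℝ → ℂ} (hh : Integrable h m)
    (H : ∀ ξ : ℝ, ∫ t, Complex.exp (ξ * t * Complex.I) * h t ∂m = 0) : h =ᵐ[m] 0 := by
  have hconj : ∀ ξ : ℝ, ∫ t, Complex.exp (ξ * t * Complex.I) * (starRingEnd ℂ (h t)) ∂m = 0 := by
    intro ξ
    have h1 := congrArg (starRingEnd ℂ) (H (-ξ))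
    rw [← integral_conj, map_zero] at h1
    rw [← h1]
    apply integral_congr_ae
    filter_upwards with t
    simp only [map_mul, ← Complex.exp_conj, Complex.conj_ofReal, Complex.conj_I]
    congr 2
    push_cast; ring
  have hint : ∀ ξ : ℝ, Integrable (fun t : ℝ => Complex.exp (ξ * t * Complex.I) * h t) m := by
    intro ξ
    refine hh.bdd_mul (c := 1) (by fun_prop) ?_
    filter_upwards with t
    rw [show (ξ : ℂ) * t * Complex.I = ((ξ * t : ℝ) : ℂ) * Complex.I by push_cast; ring,
      Complex.norm_exp_ofReal_mul_I]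
  have hh' : Integrable (fun t => starRingEnd ℂ (h t)) m := by
    refine hh.mono (Complex.continuous_conj.comp_aestronglyMeasurable hh.aestronglyMeasurable) ?_
    filter_upwards with t
    simp
  have hint' : ∀ ξ : ℝ, Integrable (fun t : ℝ => Complex.exp (ξ * t * Complex.I) *
      starRingEnd ℂ (h t)) m := by
    intro ξ
    refine hh'.bdd_mul (c := 1) (by fun_prop) ?_
    filter_upwards with t
    rw [show (ξ : ℂ) * t * Complex.I = ((ξ * t : ℝ) : ℂ) * Complex.I by push_cast; ring,
      Complex.norm_exp_ofReal_mul_I]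
  have hre : (fun t => (h t).re) =ᵐ[m] 0 := by
    apply real_uniq hh.re
    intro ξ
    change ∫ t : ℝ, Complex.exp (ξ * t * Complex.I) * ((h t).re : ℂ) ∂m = 0
    have := integral_add (hint ξ) (hint' ξ)
    rw [H ξ, hconj ξ, add_zero] at this
    have h2 : (fun t : ℝ => Complex.exp (ξ * t * Complex.I) * ((h t).re : ℂ)) =
      fun t : ℝ => (1/2 : ℂ) * (Complex.exp (ξ * t * Complex.I) * h t +
        Complex.exp (ξ * t * Complex.I) * starRingEnd ℂ (h t)) := by
      ext t
      rw [← mul_add, Complex.add_conj]; push_cast; ring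
    rw [h2, integral_const_mul, this, mul_zero]
  have him : (fun t => (h t).im) =ᵐ[m] 0 := by
    apply real_uniq hh.im
    intro ξ
    change ∫ t : ℝ, Complex.exp (ξ * t * Complex.I) * ((h t).im : ℂ) ∂m = 0
    have := integral_sub (hint ξ) (hint' ξ)
    rw [H ξ, hconj ξ, sub_zero] at this
    have h2 : (fun t : ℝ => Complex.exp (ξ * t * Complex.I) * ((h t).im : ℂ)) =
      fun t : ℝ => (1/(2 * Complex.I) : ℂ) * (Complex.exp (ξ * t * Complex.I) * h t -
        Complex.exp (ξ * t * Complex.I) * starRingEnd ℂ (h t)) := by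
      ext t
      rw [← mul_sub, Complex.sub_conj]
      push_cast
      field_simp
    rw [h2, integral_const_mul, this, mul_zero]
  filter_upwards [hre, him] with t h1 h2
  exact Complex.ext h1 h2


lemma const_mul_exp {W : ℂ → ℂ} (hW : Differentiable ℂ W) {K : ℝ}
    (hb : ∀ z : ℂ, ‖W z‖ ≤ K * Real.exp (-z.re)) : ∃ κ : ℂ, ∀ z, W z = κ * Complex.exp (-z) := by
  have hd : Differentiable ℂ (fun z => W z * Complex.exp z) := hW.mul Complex.differentiable_exp
  have hbd : Bornology.IsBounded (range (fun z => W z * Complex.exp z)) := by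
    rw [isBounded_iff_forall_norm_le]
    refine ⟨K, ?_⟩
    rintro _ ⟨z, rfl⟩
    simp only
    rw [norm_mul, Complex.norm_exp]
    calc ‖W z‖ * Real.exp z.re ≤ (K * Real.exp (-z.re)) * Real.exp z.re :=
          mul_le_mul_of_nonneg_right (hb z) (Real.exp_pos _).le
      _ = K := by rw [mul_assoc, ← Real.exp_add]; simp
  refine ⟨W 0 * Complex.exp 0, fun z => ?_⟩
  have := hd.apply_eq_apply_of_bounded hbd z 0
  rw [← this, mul_assoc, ← Complex.exp_add]; simp

lemma core {F B C F' B' C' : ℂ → ℂ} {n : ℕ} {K : ℝ}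
    (hF : ∀ z, HasDerivAt F (F' z) z) (hB : ∀ z, HasDerivAt B (B' z) z)
    (hC : ∀ z, HasDerivAt C (C' z) z)
    (hF'd : Differentiable ℂ F') (hB'd : Differentiable ℂ B')
    (hpow : ∀ z, F z ^ (n + 1) = B z + C z)
    (hFl : ∀ z : ℂ, z.re ≤ 0 → ‖F z‖ ≤ K * Real.exp (-z.re / 2))
    (hF'l : ∀ z : ℂ, z.re ≤ 0 → ‖F' z‖ ≤ K * Real.exp (-z.re / 2))
    (hBl : ∀ z : ℂ, z.re ≤ 0 → ‖B z‖ ≤ K * Real.exp (-z.re / 2))
    (hB'l : ∀ z : ℂ, z.re ≤ 0 → ‖B' z‖ ≤ K * Real.exp (-z.re / 2))
    (hFr : ∀ z : ℂ, 0 ≤ z.re → ‖F z‖ ≤ K) (hF'r : ∀ z : ℂ, 0 ≤ z.re → ‖F' z‖ ≤ K)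
    (hCr : ∀ z : ℂ, 0 ≤ z.re → ‖C z‖ ≤ K * Real.exp (-z.re))
    (hC'r : ∀ z : ℂ, 0 ≤ z.re → ‖C' z‖ ≤ K * Real.exp (-z.re))
    (hF0 : Tendsto (fun x : ℝ => F x) atTop (𝓝 0))
    (hF'0 : Tendsto (fun x : ℝ => F' x) atTop (𝓝 0))
    (hFne : ∃ z, F z ≠ 0) :
    (∀ z, B z = 0) ∨ (∀ z, C z = 0) := by
  have hK : 0 ≤ K := by
    have := hFr 0 (by simp)
    exact (norm_nonneg _).trans this
  have hFd : Differentiable ℂ F := fun z => (hF z).differentiableAt
  have hBd : Differentiable ℂ B := fun z => (hB z).differentiableAt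
  have hCd : Differentiable ℂ C := fun z => (hC z).differentiableAt
  set W : ℂ → ℂ := fun z => F z * B' z - (n + 1) * B z * F' z with hWdef
  have hWd : Differentiable ℂ W :=
    (hFd.mul hB'd).sub (((differentiable_const _).mul hBd).mul hF'd)
  -- the Wronskian identity
  have hder : ∀ z, (n + 1 : ℂ) * F z ^ n * F' z = B' z + C' z := by
    intro z
    have h1 : HasDerivAt (fun z => F z ^ (n + 1)) ((n + 1 : ℂ) * F z ^ n * F' z) z := by
      have := (hF z).fun_pow (n + 1)
      simpa using this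
    have h2 : HasDerivAt (fun z => F z ^ (n + 1)) (B' z + C' z) z := by
      have h3 : (fun z => F z ^ (n + 1)) = fun z => B z + C z := funext hpow
      rw [h3]; exact (hB z).add (hC z)
    exact h1.unique h2
  have hW2 : ∀ z, W z = (n + 1) * C z * F' z - F z * C' z := by
    intro z
    have h1 := hder z
    have h2 : F z * (B' z + C' z) = (n + 1) * (B z + C z) * F' z := by
      rw [← h1, ← hpow]; ring
    simp only [hWdef]
    linear_combination h2
  have hWb : ∀ z : ℂ, ‖W z‖ ≤ ((n + 2) * K ^ 2) * Real.exp (-z.re) := by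
    intro z
    rcases le_total z.re 0 with hz | hz
    · have e1 : Real.exp (-z.re / 2) * Real.exp (-z.re / 2) = Real.exp (-z.re) := by
        rw [← Real.exp_add]; congr 1; ring
      calc ‖W z‖ ≤ ‖F z * B' z‖ + ‖(n + 1) * B z * F' z‖ := norm_sub_le _ _
        _ = ‖F z‖ * ‖B' z‖ + (n + 1) * (‖B z‖ * ‖F' z‖) := by
            rw [norm_mul, norm_mul, norm_mul]
            have : ‖(n + 1 : ℂ)‖ = n + 1 := by
              rw [← Nat.cast_succ, Complex.norm_natCast]; simp
            rw [this]; ring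
        _ ≤ (K * Real.exp (-z.re / 2)) * (K * Real.exp (-z.re / 2)) +
            (n + 1) * ((K * Real.exp (-z.re / 2)) * (K * Real.exp (-z.re / 2))) := by
            gcongr
            · exact hFl z hz
            · exact hB'l z hz
            · exact hBl z hz
            · exact hF'l z hz
        _ = ((n + 2) * K ^ 2) * (Real.exp (-z.re / 2) * Real.exp (-z.re / 2)) := by ring
        _ = _ := by rw [e1]
    · rw [hW2]
      calc ‖(n + 1) * C z * F' z - F z * C' z‖ ≤ ‖(n + 1) * C z * F' z‖ + ‖F z * C' z‖ :=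
            norm_sub_le _ _
        _ = (n + 1) * (‖C z‖ * ‖F' z‖) + ‖F z‖ * ‖C' z‖ := by
            rw [norm_mul, norm_mul, norm_mul]
            have : ‖(n + 1 : ℂ)‖ = n + 1 := by
              rw [← Nat.cast_succ, Complex.norm_natCast]; simp
            rw [this]; ring
        _ ≤ (n + 1) * ((K * Real.exp (-z.re)) * K) + K * (K * Real.exp (-z.re)) := by
            gcongr
            · exact hCr z hz
            · exact hF'r z hz
            · exact hFr z hz
            · exact hC'r z hz
        _ = _ := by ring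
  obtain ⟨κ, hκ⟩ := const_mul_exp hWd hWb
  -- the constant vanishes
  have hκ0 : κ = 0 := by
    have hlim : Tendsto (fun x : ℝ => (n + 1) * K * ‖F' x‖ + ‖F x‖ * K) atTop (𝓝 0) := by
      have h1 := (hF'0.norm.const_mul ((n + 1 : ℝ) * K)).add (hF0.norm.mul_const K)
      simpa using h1
    have hle : ∀ᶠ x : ℝ in atTop, ‖κ‖ ≤ (n + 1) * K * ‖F' x‖ + ‖F x‖ * K := by
      filter_upwards [eventually_ge_atTop 0] with x hx
      have h1 : κ = W x * Complex.exp x := by
        rw [hκ, mul_assoc, ← Complex.exp_add]; simp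
      have h2 : ‖Complex.exp (x : ℂ)‖ = Real.exp x := by rw [Complex.norm_exp]; simp
      have hxre : 0 ≤ ((x : ℂ)).re := by simpa using hx
      calc ‖κ‖ = ‖(n + 1) * C x * F' x - F x * C' x‖ * Real.exp x := by
            rw [h1, norm_mul, h2, hW2]
        _ ≤ (‖(n + 1) * C x * F' x‖ + ‖F x * C' x‖) * Real.exp x := by
            gcongr; exact norm_sub_le _ _
        _ = ((n + 1) * (‖C x‖ * ‖F' x‖) + ‖F x‖ * ‖C' x‖) * Real.exp x := by
            rw [norm_mul, norm_mul, norm_mul]
            have : ‖(n + 1 : ℂ)‖ = n + 1 := by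
              rw [← Nat.cast_succ, Complex.norm_natCast]; simp
            rw [this]; ring
        _ ≤ ((n + 1) * ((K * Real.exp (-x)) * ‖F' x‖) + ‖F x‖ * (K * Real.exp (-x))) *
              Real.exp x := by
            gcongr
            · simpa using hCr x hxre
            · simpa using hC'r x hxre
        _ = ((n + 1) * K * ‖F' x‖ + ‖F x‖ * K) * (Real.exp (-x) * Real.exp x) := by ring
        _ = _ := by rw [← Real.exp_add]; simp
    have := ge_of_tendsto hlim hle
    simpa using this
  have hW0 : ∀ z, F z * B' z = (n + 1) * B z * F' z := by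
    intro z
    have := hκ z
    rw [hκ0, zero_mul] at this
    simpa [hWdef, sub_eq_zero] using this
  -- `B` is a constant multiple of `F ^ (n+1)`
  obtain ⟨z₀, hz₀⟩ := hFne
  obtain ⟨ε, hε, hball⟩ : ∃ ε > 0, ∀ z ∈ Metric.ball z₀ ε, F z ≠ 0 :=
    Metric.eventually_nhds_iff_ball.1 (hFd.continuous.continuousAt.eventually_ne hz₀)
  set H : ℂ → ℂ := fun z => B z / F z ^ (n + 1) with hH
  have hHder : ∀ z ∈ Metric.ball z₀ ε, HasDerivAt H 0 z := by
    intro z hz
    have h0 : HasDerivAt (fun z => F z ^ (n + 1)) ((n + 1 : ℂ) * F z ^ n * F' z) z := by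
      have := (hF z).fun_pow (n + 1)
      simpa using this
    have h1 := (hB z).fun_div h0 (pow_ne_zero _ (hball z hz))
    have h2 := hW0 z
    have h3 : (B' z * F z ^ (n + 1) - B z * ((n + 1 : ℂ) * F z ^ n * F' z)) /
        (F z ^ (n + 1)) ^ 2 = 0 := by
      rw [div_eq_zero_iff]
      left
      linear_combination (F z ^ n) * h2
    rw [h3] at h1
    exact h1
  obtain ⟨lam, hlam⟩ : ∃ lam : ℂ, ∀ z ∈ Metric.ball z₀ ε, H z = lam := by
    refine ⟨H z₀, fun z hz => ?_⟩
    refine (convex_ball z₀ ε).is_const_of_fderivWithin_eq_zero (𝕜 := ℂ)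
      (fun w hw => (hHder w hw).differentiableAt.differentiableWithinAt) ?_ hz
      (Metric.mem_ball_self hε)
    intro w hw
    rw [fderivWithin_of_isOpen Metric.isOpen_ball hw]
    exact (hasFDerivAt_iff_hasDerivAt.2 (by simpa using hHder w hw)).fderiv
  have hBF : B = fun z => lam * F z ^ (n + 1) := by
    have hBa : AnalyticOnNhd ℂ B univ := fun z _ => hBd.analyticAt z
    have hFa : AnalyticOnNhd ℂ (fun z => lam * F z ^ (n + 1)) univ :=
      fun z _ => ((differentiable_const lam).mul (hFd.pow (n + 1))).analyticAt z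
    refine hBa.eq_of_eventuallyEq hFa (z₀ := z₀) ?_
    filter_upwards [Metric.ball_mem_nhds z₀ hε] with z hz
    have := hlam z hz
    simp only [hH] at this
    rw [div_eq_iff (pow_ne_zero _ (hball z hz))] at this
    exact this
  by_cases hl : lam = 1
  · right
    intro z
    have h1 := congrFun hBF z
    simp only [hl, one_mul, hpow] at h1
    linear_combination -h1
  · left
    -- (1 - lam) B = lam C
    have h1 : ∀ z, (1 - lam) * B z = lam * C z := by
      intro z
      have h1 := congrFun hBF z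
      simp only [hpow] at h1
      linear_combination h1
    have hl' : (1 - lam) ≠ 0 := sub_ne_zero.2 (Ne.symm hl)
    have hBC : ∀ z, B z = (lam / (1 - lam)) * C z := by
      intro z
      field_simp
      rw [mul_comm (B z), h1]
    have hBb : ∀ z : ℂ, ‖B z‖ ≤ ((1 + ‖lam / (1 - lam)‖) * K) * Real.exp (-z.re) := by
      intro z
      have hnn := norm_nonneg (lam / (1 - lam))
      rcases le_total z.re 0 with hz | hz
      · refine (hBl z hz).trans ?_
        have : Real.exp (-z.re / 2) ≤ Real.exp (-z.re) := Real.exp_le_exp.2 (by linarith)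
        have h3 := Real.exp_pos (-z.re / 2)
        have h4 := Real.exp_pos (-z.re)
        nlinarith [mul_le_mul_of_nonneg_left this hK, mul_nonneg (mul_nonneg hnn hK) h4.le]
      · rw [hBC, norm_mul]
        refine (mul_le_mul_of_nonneg_left (hCr z hz) hnn).trans ?_
        have h4 := Real.exp_pos (-z.re)
        nlinarith [mul_nonneg hK h4.le]
    obtain ⟨κ', hκ'⟩ := const_mul_exp hBd hBb
    have hκ'0 : κ' = 0 := by
      have hlim : Tendsto (fun x : ℝ => K * Real.exp (-x / 2)) atTop (𝓝 0) := by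
        have : Tendsto (fun x : ℝ => Real.exp (-x / 2)) atTop (𝓝 0) := by
          apply Real.tendsto_exp_atBot.comp
          have := (tendsto_neg_atTop_atBot (G := ℝ)).atBot_div_const (r := 2) (by norm_num)
          exact this
        simpa using this.const_mul K
      have hle : ∀ᶠ x : ℝ in atTop, ‖κ'‖ ≤ K * Real.exp (-x / 2) := by
        filter_upwards [eventually_ge_atTop 0] with x hx
        have h2 := hκ' (-x)
        have h3 := hBl (-x) (by simpa using hx)
        rw [h2, norm_mul, Complex.norm_exp] at h3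
        have h4 : (-(-(x : ℂ))).re = x := by simp
        have h5 : -(-(x : ℂ)).re / 2 = x / 2 := by simp
        rw [h4, h5] at h3
        have h6 : Real.exp x = Real.exp (x / 2) * Real.exp (x / 2) := by
          rw [← Real.exp_add]; congr 1; ring
        have h7 : Real.exp (-x / 2) = (Real.exp (x / 2))⁻¹ := by
          rw [← Real.exp_neg]; congr 1; ring
        rw [h7]
        rw [h6, ← mul_assoc] at h3
        have h8 := Real.exp_pos (x / 2)
        have h9 := le_of_mul_le_mul_right h3 h8
        rw [← div_eq_mul_inv, le_div_iff₀ h8]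
        exact h9
      have := ge_of_tendsto hlim hle
      simpa using this
    intro z
    rw [hκ', hκ'0, zero_mul]


def Lap (m : Measure ℝ) (h : ℝ → ℂ) (z : ℂ) : ℂ := ∫ t, Complex.exp (-z * t) * h t ∂m

lemma exp_norm (z : ℂ) (t : ℝ) : ‖Complex.exp (-z * t)‖ = Real.exp (-z.re * t) := by
  rw [Complex.norm_exp]; simp

lemma tmul_integrable {m : Measure ℝ} {R : ℝ} (hR : m (Ioo 0 R)ᶜ = 0) {h : ℝ → ℂ}
    (hh : Integrable h m) : Integrable (fun t : ℝ => (-t : ℂ) * h t) m := by
  refine hh.bdd_mul (c := |R|) (by fun_prop) ?_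
  have h2 : ∀ᵐ t ∂m, t ∈ Ioo 0 R := by rw [ae_iff]; exact hR
  filter_upwards [h2] with t ht
  rw [norm_neg, Complex.norm_real, Real.norm_eq_abs, abs_of_pos ht.1,
    abs_of_pos (ht.1.trans ht.2)]
  exact ht.2.le

lemma exp_bound_of_mem {R : ℝ} {t : ℝ} (ht : t ∈ Ioo 0 R) (z : ℂ) :
    ‖Complex.exp (-z * t)‖ ≤ Real.exp (‖z‖ * R) := by
  rw [exp_norm]
  apply Real.exp_le_exp.2
  calc -z.re * t ≤ |z.re| * t := by
        apply mul_le_mul_of_nonneg_right (neg_le_abs _) ht.1.le
    _ ≤ ‖z‖ * R := by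
        apply mul_le_mul (Complex.abs_re_le_norm z) ht.2.le ht.1.le (norm_nonneg _)

lemma expmul_integrable {m : Measure ℝ} {R : ℝ} (hR : m (Ioo 0 R)ᶜ = 0) {h : ℝ → ℂ}
    (hh : Integrable h m) (z : ℂ) :
    Integrable (fun t : ℝ => Complex.exp (-z * t) * h t) m := by
  refine hh.bdd_mul (c := Real.exp (‖z‖ * R)) (by fun_prop) ?_
  have h2 : ∀ᵐ t ∂m, t ∈ Ioo 0 R := by rw [ae_iff]; exact hR
  filter_upwards [h2] with t ht
  exact exp_bound_of_mem ht z

lemma Lap_hasDeriv {m : Measure ℝ} {R : ℝ} (hR : m (Ioo 0 R)ᶜ = 0) {h : ℝ → ℂ}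
    (hh : Integrable h m) (z : ℂ) :
    HasDerivAt (Lap m h) (Lap m (fun t : ℝ => (-t : ℂ) * h t) z) z := by
  have h2 : ∀ᵐ t ∂m, t ∈ Ioo 0 R := by rw [ae_iff]; exact hR
  have key := hasDerivAt_integral_of_dominated_loc_of_deriv_le (μ := m) (𝕜 := ℂ)
    (F := fun z t => Complex.exp (-z * t) * h t)
    (F' := fun z t => Complex.exp (-z * t) * ((-t : ℂ) * h t)) (x₀ := z)
    (bound := fun t => Real.exp ((‖z‖ + 1) * |R|) * ‖(-t : ℂ) * h t‖)
    (s := Metric.ball z 1) (Metric.ball_mem_nhds z one_pos)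
    (by filter_upwards with w using (expmul_integrable hR hh w).aestronglyMeasurable)
    (expmul_integrable hR hh z)
    (expmul_integrable hR (tmul_integrable hR hh) z).aestronglyMeasurable
    (by
      filter_upwards [h2] with t ht w hw
      rw [norm_mul]
      apply mul_le_mul_of_nonneg_right _ (norm_nonneg _)
      refine (exp_bound_of_mem ht w).trans (Real.exp_le_exp.2 ?_)
      have hw' : ‖w‖ ≤ ‖z‖ + 1 := by
        have := mem_ball_iff_norm.1 hw
        have h3 := norm_sub_norm_le w z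
        linarith
      apply mul_le_mul hw' (le_abs_self R) (ht.1.trans ht.2).le (by positivity))
    ((tmul_integrable hR hh).norm.const_mul _)
    (by
      filter_upwards [h2] with t ht w hw
      have h3 : HasDerivAt (fun w : ℂ => Complex.exp (-w * t)) (Complex.exp (-w * t) * (-t)) w := by
        have h4 : HasDerivAt (fun w : ℂ => -w * (t : ℂ)) (-t) w := by
          simpa using ((hasDerivAt_id w).neg.mul_const (t : ℂ))
        exact h4.cexp
      have := h3.mul_const (h t)
      rw [mul_assoc] at this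
      exact this)
  exact key.2

lemma Lap_differentiable {m : Measure ℝ} {R : ℝ} (hR : m (Ioo 0 R)ᶜ = 0) {h : ℝ → ℂ}
    (hh : Integrable h m) : Differentiable ℂ (Lap m h) :=
  fun z => (Lap_hasDeriv hR hh z).differentiableAt

lemma Lap_bound {m : Measure ℝ} {s : Set ℝ} (hs : m sᶜ = 0) {h : ℝ → ℂ}
    (hh : Integrable h m) {z : ℂ} {M : ℝ} (hM : ∀ t ∈ s, Real.exp (-z.re * t) ≤ M) :
    ‖Lap m h z‖ ≤ (∫ t, ‖h t‖ ∂m) * M := by
  have h2 : ∀ᵐ t ∂m, t ∈ s := by rw [ae_iff]; exact hs
  calc ‖Lap m h z‖ ≤ ∫ t, M * ‖h t‖ ∂m := by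
        apply norm_integral_le_of_norm_le (hh.norm.const_mul M)
        filter_upwards [h2] with t ht
        rw [norm_mul, exp_norm]
        exact mul_le_mul_of_nonneg_right (hM t ht) (norm_nonneg _)
    _ = _ := by rw [integral_const_mul, mul_comm]

lemma Lap_tendsto {m : Measure ℝ} {R : ℝ} (hR : m (Ioo 0 R)ᶜ = 0) {h : ℝ → ℂ}
    (hh : Integrable h m) : Tendsto (fun x : ℝ => Lap m h x) atTop (𝓝 0) := by
  have h2 : ∀ᵐ t ∂m, t ∈ Ioo 0 R := by rw [ae_iff]; exact hR
  have : Tendsto (fun x : ℝ => ∫ t, Complex.exp (-(x : ℂ) * t) * h t ∂m) atTop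
      (𝓝 (∫ t, (0 : ℂ) ∂m)) := by
    apply tendsto_integral_filter_of_dominated_convergence (fun t => ‖h t‖)
    · filter_upwards with x using (expmul_integrable hR hh x).aestronglyMeasurable
    · filter_upwards [eventually_ge_atTop 0] with x hx
      filter_upwards [h2] with t ht
      rw [norm_mul, exp_norm]
      apply mul_le_of_le_one_left (norm_nonneg _)
      apply Real.exp_le_one_iff.2
      simp only [Complex.ofReal_re]
      have := mul_nonneg hx ht.1.le
      linarith
    · exact hh.norm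
    · filter_upwards [h2] with t ht
      rw [tendsto_zero_iff_norm_tendsto_zero]
      simp_rw [norm_mul, exp_norm, Complex.ofReal_re]
      have h3 : Tendsto (fun x : ℝ => Real.exp (-x * t)) atTop (𝓝 0) := by
        apply Real.tendsto_exp_atBot.comp
        exact (tendsto_neg_atTop_atBot).atBot_mul_const ht.1
      simpa using h3.mul_const ‖h t‖
  simpa [Lap] using this


lemma LC_eq_Lap (c : ComplexMeasure ℝ) [IsFiniteMeasure c.variation] {R : ℝ}
    (hR : c.variation (Ioo 0 R)ᶜ = 0) :
    ∃ h : ℝ → ℂ, Integrable h c.variation ∧ (∀ᵐ x ∂c.variation, ‖h x‖ = 1) ∧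
      ∀ z, LC c z = Lap c.variation h z := by
  obtain ⟨h, hh, hc, h1⟩ := rep_norm c
  refine ⟨h, hh, h1, fun z => ?_⟩
  unfold LC Lap
  conv_lhs => rw [← hc]
  exact integral_unimod hh h1 (exp_integrable hR z)

lemma eq_zero_of_LC {c : ComplexMeasure ℝ} [IsFiniteMeasure c.variation] {R : ℝ}
    (hR : c.variation (Ioo 0 R)ᶜ = 0) (H : ∀ ξ : ℝ, LC c (-(ξ * Complex.I)) = 0) : c = 0 := by
  obtain ⟨h, hh, h1, hL⟩ := LC_eq_Lap c hR
  have h0 : h =ᵐ[c.variation] 0 := by
    apply complex_uniq hh
    intro ξ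
    have := H ξ
    rw [hL] at this
    rw [← this]
    unfold Lap
    apply integral_congr_ae
    filter_upwards with t
    congr 2
    ring
  rw [← VectorMeasure.variation_eq_zero, ← Measure.measure_univ_eq_zero]
  have : ∀ᵐ x ∂c.variation, False := by
    filter_upwards [h0, h1] with x hx hx1
    rw [hx] at hx1; simp at hx1
  rw [ae_iff] at this
  simpa using this

lemma LC_sub {c d : ComplexMeasure ℝ} [IsFiniteMeasure c.variation] [IsFiniteMeasure d.variation]
    {R : ℝ} (hR : c.variation (Ioo 0 R)ᶜ = 0) (hS : d.variation (Ioo 0 R)ᶜ = 0) (z : ℂ) :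
    LC (c - d) z = LC c z - LC d z := by
  unfold LC
  exact VectorMeasure.integral_sub_vectorMeasure (exp_integrable hR z) (exp_integrable hS z)

lemma LC_add {c d : ComplexMeasure ℝ} [IsFiniteMeasure c.variation] [IsFiniteMeasure d.variation]
    {R : ℝ} (hR : c.variation (Ioo 0 R)ᶜ = 0) (hS : d.variation (Ioo 0 R)ᶜ = 0) (z : ℂ) :
    LC (c + d) z = LC c z + LC d z := by
  unfold LC
  exact VectorMeasure.integral_add_vectorMeasure (exp_integrable hR z) (exp_integrable hS z)

lemma eq_of_LC {c d : ComplexMeasure ℝ} [IsFiniteMeasure c.variation]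
    [IsFiniteMeasure d.variation] {R : ℝ}
    (hR : c.variation (Ioo 0 R)ᶜ = 0) (hS : d.variation (Ioo 0 R)ᶜ = 0)
    (H : ∀ z, LC c z = LC d z) : c = d := by
  have hle : (c - d).variation ≤ c.variation + d.variation := VectorMeasure.variation_sub_le
  have hfin : IsFiniteMeasure (c - d).variation := isFiniteMeasure_of_le _ hle
  have hconc : (c - d).variation (Ioo 0 R)ᶜ = 0 := by
    rw [← nonpos_iff_eq_zero]
    refine (hle _).trans ?_
    simp [hR, hS]
  rw [← sub_eq_zero]
  apply eq_zero_of_LC hconc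
  intro ξ
  rw [LC_sub hR hS, H, sub_self]

lemma conc_mono {c : ComplexMeasure ℝ} {R S : ℝ} (h : c.variation (Ioo 0 R)ᶜ = 0) (hRS : R ≤ S) :
    c.variation (Ioo 0 S)ᶜ = 0 :=
  measure_mono_null (compl_subset_compl.2 (Ioo_subset_Ioo_right hRS)) h

lemma fconv_conc {μ ν : ComplexMeasure ℝ} [IsFiniteMeasure μ.variation]
    [IsFiniteMeasure ν.variation] {R S : ℝ} (hμ : μ.variation (Ioo 0 R)ᶜ = 0)
    (hν : ν.variation (Ioo 0 S)ᶜ = 0) : (fconv μ ν).variation (Ioo 0 (R + S))ᶜ = 0 := by
  rw [← nonpos_iff_eq_zero]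
  refine (variation_fconv_apply_le _ _ measurableSet_Ioo.compl).trans ?_
  have : (fun p : ℝ × ℝ => p.1 + p.2) ⁻¹' (Ioo 0 (R + S))ᶜ ⊆
      ((Ioo 0 R)ᶜ ×ˢ univ) ∪ (univ ×ˢ (Ioo 0 S)ᶜ) := by
    intro p hp
    by_contra hc
    simp only [mem_union, mem_prod, mem_univ, and_true, true_and, not_or, mem_compl_iff,
      not_not, mem_Ioo] at hc
    apply hp
    simp only [mem_Ioo]
    constructor <;> linarith [hc.1.1, hc.1.2, hc.2.1, hc.2.2]
  refine (measure_mono this).trans ((measure_union_le _ _).trans ?_)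
  rw [Measure.prod_prod, Measure.prod_prod, hμ, hν]
  simp

lemma fullPow_add {a : ComplexMeasure ℝ} [IsFiniteMeasure a.variation]
    (ha : a.variation (Ioo 0 1)ᶜ = 0) (m n : ℕ) :
    fconv (fullPow a m) (fullPow a n) = fullPow a (m + n + 1) := by
  have h1 := fullPow_conc ha m
  have h2 := fullPow_conc ha n
  have h3 := fullPow_conc ha (m + n + 1)
  have h4 := fconv_conc h1 h2
  have h5 : (fconv (fullPow a m) (fullPow a n)).variation
      (Ioo 0 (((m + n + 1 : ℕ) : ℝ) + 1))ᶜ = 0 := by
    convert h4 using 4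
    push_cast; ring
  apply eq_of_LC h5 h3
  intro z
  rw [LC_fconv h1 h2, LC_fullPow ha, LC_fullPow ha, LC_fullPow ha, ← pow_add]
  congr 1
  omega

lemma truncConv_eq {a : ComplexMeasure ℝ} [IsFiniteMeasure a.variation]
    (ha : a.variation (Ioo 0 1)ᶜ = 0) (m n : ℕ) :
    truncConv ((fullPow a m).restrict (Ioo 0 1)) ((fullPow a n).restrict (Ioo 0 1)) =
      (fullPow a (m + n + 1)).restrict (Ioo 0 1) := by
  have h1 := var_Iic_zero (fullPow_conc ha m)
  have h2 := var_Iic_zero (fullPow_conc ha n)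
  have hP : ∀ (c : ComplexMeasure ℝ) (s : Set ℝ), MeasurableSet s → c.variation (Iic 0) = 0 →
      (c.restrict s).variation (Iic 0) = 0 := by
    intro c s hs hc
    rw [← nonpos_iff_eq_zero]
    refine (VectorMeasure.variation_restrict_le _).trans ?_
    refine (Measure.restrict_apply_le _ _).trans ?_
    rw [hc]
  rw [← fullPow_add ha m n]
  conv_rhs => rw [restrict_add_split h1, restrict_add_split h2]
  rw [fconv_add_left, fconv_add_right, fconv_add_right]
  simp only [VectorMeasure.restrict_add]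
  rw [fconv_restrict_zero _ _ (hP _ _ measurableSet_Ioo h1) (var_restrict_Ici _),
    fconv_restrict_zero _ _ (hP _ _ measurableSet_Ici h1) (var_restrict_Ici _),
    fconv_restrict_zero' _ _ (var_restrict_Ici _) (hP _ _ measurableSet_Ioo h2)]
  simp [truncConv_eq_restrict]

lemma supp_half {b : ComplexMeasure ℝ} [IsFiniteMeasure b.variation]
    (h : (truncConv b b).variation univ = (b.variation univ) ^ 2) :
    b.variation (Ici (1 / 2)) = 0 := by
  have h1 : (truncConv b b).variation univ ≤ (b.variation.prod b.variation)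
      ((fun p : ℝ × ℝ => p.1 + p.2) ⁻¹' (Ioo 0 1)) := by
    unfold truncConv
    rw [VectorMeasure.variation_restrict measurableSet_Ioo, Measure.restrict_apply_univ]
    exact variation_fconv_apply_le _ _ measurableSet_Ioo
  set S : Set (ℝ × ℝ) := (fun p : ℝ × ℝ => p.1 + p.2) ⁻¹' (Ioo 0 1) with hS
  have hSm : MeasurableSet S := measurableSet_Ioo.preimage (by fun_prop)
  have h2 : (b.variation.prod b.variation) univ = (b.variation univ) ^ 2 := by
    rw [← univ_prod_univ, Measure.prod_prod]; ring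
  have h3 : (b.variation.prod b.variation) Sᶜ = 0 := by
    have h4 := measure_add_measure_compl (μ := b.variation.prod b.variation) hSm
    rw [h2, ← h] at h4
    have h5 : (b.variation.prod b.variation) S + (b.variation.prod b.variation) Sᶜ ≤
        (b.variation.prod b.variation) S + 0 := by
      rw [h4, add_zero]; exact h1
    exact nonpos_iff_eq_zero.1
      ((ENNReal.add_le_add_iff_left (measure_ne_top _ _)).1 h5)
  have h6 : (b.variation.prod b.variation) (Ici (1 / 2) ×ˢ Ici (1 / 2)) = 0 := by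
    apply measure_mono_null _ h3
    intro p hp hp'
    have := hp'.2
    simp only [mem_prod, mem_Ici] at hp
    simp only at this
    linarith [hp.1, hp.2]
  rw [Measure.prod_prod] at h6
  exact mul_self_eq_zero.1 h6


lemma half_conc {c : ComplexMeasure ℝ} (h0 : c.variation (Iic 0) = 0)
    (h1 : c.variation (Ici (1 / 2)) = 0) : c.variation (Ioo 0 (1 / 2))ᶜ = 0 := by
  apply measure_mono_null (t := Iic 0 ∪ Ici (1 / 2)) _ (measure_union_null h0 h1)
  intro x hx
  by_contra hc
  simp only [mem_union, mem_Iic, mem_Ici, not_or, not_le] at hc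
  exact hx ⟨hc.1, hc.2⟩

lemma LC_norm_le {c : ComplexMeasure ℝ} [IsFiniteMeasure c.variation] (ξ : ℝ) :
    ‖LC c (-(ξ * Complex.I))‖ ≤ c.variation.real univ := by
  unfold LC
  refine (VectorMeasure.norm_integral_le_integral_norm).trans ?_
  rw [ContinuousLinearMap.opNorm_mul, one_mul]
  have : ∀ t : ℝ, ‖Complex.exp (-(-((ξ : ℂ) * Complex.I)) * t)‖ = 1 := by
    intro t
    rw [show -(-((ξ : ℂ) * Complex.I)) * t = ((ξ * t : ℝ) : ℂ) * Complex.I by push_cast; ring,
      Complex.norm_exp_ofReal_mul_I]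
  simp_rw [this]
  simp

lemma key_step {a : ComplexMeasure ℝ} [IsFiniteMeasure a.variation]
    (hc : a.variation (Ioo 0 1)ᶜ = 0) (hhalf : a.variation (Ici (1 / 2)) = 0)
    (hane : a ≠ 0) {k : ℕ}
    (hP : ((fullPow a k).restrict (Ioo 0 1)).variation (Ici (1 / 2)) = 0)
    (hPne : (fullPow a k).restrict (Ioo 0 1) ≠ 0) (z : ℂ) :
    LC a z ^ (k + 1) = LC ((fullPow a k).restrict (Ioo 0 1)) z := by
  set A := fullPow a k with hA
  set P := A.restrict (Ioo 0 1) with hPdef
  set Q := A.restrict (Ici 1) with hQdef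
  have hAc := fullPow_conc hc k
  have hrestr : ∀ (c : ComplexMeasure ℝ) (s t : Set ℝ), c.variation t = 0 →
      (c.restrict s).variation t = 0 := by
    intro c s t hc
    rw [← nonpos_iff_eq_zero]
    refine (VectorMeasure.variation_restrict_le _).trans ?_
    refine (Measure.restrict_apply_le _ _).trans ?_
    rw [hc]
  have hPc1 : P.variation (Ioo 0 ((k : ℝ) + 1))ᶜ = 0 := hrestr _ _ _ hAc
  have hQc1 : Q.variation (Ioo 0 ((k : ℝ) + 1))ᶜ = 0 := hrestr _ _ _ hAc
  have hac : a.variation (Ioo 0 (1 / 2))ᶜ = 0 := half_conc (var_Iic_zero hc) hhalf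
  have hPc : P.variation (Ioo 0 (1 / 2))ᶜ = 0 := half_conc (var_Iic_zero hPc1) hP
  have hQc : Q.variation (Ici 1)ᶜ = 0 := by rw [compl_Ici]; exact var_restrict_Ici A
  obtain ⟨ha, hha, -, hFa⟩ := LC_eq_Lap a hac
  obtain ⟨hp, hhp, -, hFp⟩ := LC_eq_Lap P hPc
  obtain ⟨hq, hhq, -, hFq⟩ := LC_eq_Lap Q hQc1
  have tha := tmul_integrable hac hha
  have thp := tmul_integrable hPc hhp
  have thq := tmul_integrable hQc1 hhq
  have hsplit : ∀ z, LC a z ^ (k + 1) = LC P z + LC Q z := by
    intro z
    rw [← LC_fullPow hc k, ← LC_add hPc1 hQc1, ← restrict_add_split (var_Iic_zero hAc)]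
  have eF : LC a = Lap a.variation ha := funext hFa
  have eP : LC P = Lap P.variation hp := funext hFp
  have eQ : LC Q = Lap Q.variation hq := funext hFq
  set n1 := ∫ t, ‖ha t‖ ∂a.variation
  set n2 := ∫ t : ℝ, ‖(-t : ℂ) * ha t‖ ∂a.variation
  set n3 := ∫ t, ‖hp t‖ ∂P.variation
  set n4 := ∫ t : ℝ, ‖(-t : ℂ) * hp t‖ ∂P.variation
  set n5 := ∫ t, ‖hq t‖ ∂Q.variation
  set n6 := ∫ t : ℝ, ‖(-t : ℂ) * hq t‖ ∂Q.variation
  have p1 : 0 ≤ n1 := integral_nonneg fun _ => norm_nonneg _
  have p2 : 0 ≤ n2 := integral_nonneg fun _ => norm_nonneg _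
  have p3 : 0 ≤ n3 := integral_nonneg fun _ => norm_nonneg _
  have p4 : 0 ≤ n4 := integral_nonneg fun _ => norm_nonneg _
  have p5 : 0 ≤ n5 := integral_nonneg fun _ => norm_nonneg _
  have p6 : 0 ≤ n6 := integral_nonneg fun _ => norm_nonneg _
  set K := n1 + n2 + n3 + n4 + n5 + n6
  have hleft : ∀ {z : ℂ}, z.re ≤ 0 → ∀ t ∈ Ioo (0 : ℝ) (1 / 2),
      Real.exp (-z.re * t) ≤ Real.exp (-z.re / 2) := by
    intro z hz t ht
    apply Real.exp_le_exp.2
    have := ht.2
    nlinarith
  have hright : ∀ {z : ℂ}, 0 ≤ z.re → ∀ t ∈ Ioo (0 : ℝ) (1 / 2), Real.exp (-z.re * t) ≤ 1 := by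
    intro z hz t ht
    apply Real.exp_le_one_iff.2
    have := ht.1
    nlinarith
  have hright' : ∀ {z : ℂ}, 0 ≤ z.re → ∀ t ∈ Ici (1 : ℝ),
      Real.exp (-z.re * t) ≤ Real.exp (-z.re) := by
    intro z hz t ht
    apply Real.exp_le_exp.2
    have : (1 : ℝ) ≤ t := ht
    nlinarith
  have hres := core (F := LC a) (B := LC P) (C := LC Q)
    (F' := Lap a.variation (fun t : ℝ => (-t : ℂ) * ha t))
    (B' := Lap P.variation (fun t : ℝ => (-t : ℂ) * hp t))
    (C' := Lap Q.variation (fun t : ℝ => (-t : ℂ) * hq t)) (n := k) (K := K)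
    (by rw [eF]; exact Lap_hasDeriv hac hha)
    (by rw [eP]; exact Lap_hasDeriv hPc hhp)
    (by rw [eQ]; exact Lap_hasDeriv hQc1 hhq)
    (Lap_differentiable hac tha) (Lap_differentiable hPc thp) hsplit
    (by
      intro z hz; rw [eF]
      refine (Lap_bound hac hha (hleft hz)).trans ?_
      gcongr; linarith)
    (by
      intro z hz
      refine (Lap_bound hac tha (hleft hz)).trans ?_
      gcongr; linarith)
    (by
      intro z hz; rw [eP]
      refine (Lap_bound hPc hhp (hleft hz)).trans ?_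
      gcongr; linarith)
    (by
      intro z hz
      refine (Lap_bound hPc thp (hleft hz)).trans ?_
      gcongr; linarith)
    (by
      intro z hz; rw [eF]
      refine (Lap_bound hac hha (hright hz)).trans ?_
      linarith)
    (by
      intro z hz
      refine (Lap_bound hac tha (hright hz)).trans ?_
      linarith)
    (by
      intro z hz; rw [eQ]
      refine (Lap_bound hQc hhq (hright' hz)).trans ?_
      gcongr; linarith)
    (by
      intro z hz
      refine (Lap_bound hQc thq (hright' hz)).trans ?_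
      gcongr; linarith)
    (by rw [eF]; exact Lap_tendsto hac hha)
    (Lap_tendsto hac tha)
    (by
      by_contra hcon
      push Not at hcon
      exact hane (eq_zero_of_LC hac fun ξ => hcon _))
  rcases hres with h | h
  · exact absurd (eq_zero_of_LC hPc fun ξ => h _) hPne
  · rw [hsplit, h, add_zero]

theorem meas_main {a : ComplexMeasure ℝ} (ha : a.restrict (Ioo 0 1) = a) {ω : ℕ → ℝ}
    (hn : ∀ n, 1 ≤ n → (measPow a n).variation univ = ENNReal.ofReal (ω n))
    (hpos : ∀ n, 1 ≤ n → 0 < ω n) (h2 : ω 2 = ω 1 ^ 2)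
    (hinf : ∀ N : ℕ, ∃ n ≥ N, 1 ≤ n ∧ ω (2 * n) = ω n ^ 2)
    (hroot : Tendsto (fun n : ℕ => ω n ^ (1 / (n : ℝ))) atTop (𝓝 0)) : False := by
  have hfin : IsFiniteMeasure a.variation := ⟨by
    have := hn 1 le_rfl
    change a.variation univ = _ at this
    rw [this]; exact ENNReal.ofReal_lt_top⟩
  have hc := conc_of_restrict ha
  have hhalf : a.variation (Ici (1 / 2)) = 0 := by
    apply supp_half
    have e2 := hn 2 (by norm_num)
    change (truncConv a a).variation univ = _ at e2
    have e1 := hn 1 le_rfl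
    change a.variation univ = _ at e1
    rw [e2, e1, h2, ENNReal.ofReal_pow (hpos 1 le_rfl).le]
  have hane : a ≠ 0 := by
    intro h0
    have e1 := hn 1 le_rfl
    change a.variation univ = _ at e1
    rw [h0] at e1
    simp only [VectorMeasure.variation_zero, Measure.coe_zero, Pi.zero_apply] at e1
    have := ENNReal.ofReal_pos.2 (hpos 1 le_rfl)
    rw [← e1] at this
    exact lt_irrefl _ this
  apply hane
  apply eq_zero_of_LC hc
  intro ξ
  by_contra hne
  have hFpos : 0 < ‖LC a (-(ξ * Complex.I))‖ := norm_pos_iff.2 hne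
  obtain ⟨N, hN⟩ := (hroot.eventually (gt_mem_nhds hFpos)).exists_forall_of_atTop
  obtain ⟨n, hnN, hn1, hsq⟩ := hinf N
  obtain ⟨k, rfl⟩ : ∃ k, n = k + 1 := ⟨n - 1, by omega⟩
  have hP1 : (truncConv (measPow a (k + 1)) (measPow a (k + 1))) = measPow a (2 * (k + 1)) := by
    rw [measPow_eq ha, truncConv_eq hc, show 2 * (k + 1) = (k + k + 1) + 1 by ring,
      measPow_eq ha]
  have hPfin : IsFiniteMeasure (measPow a (k + 1)).variation := by
    rw [measPow_eq ha]; infer_instance
  have hPhalf : (measPow a (k + 1)).variation (Ici (1 / 2)) = 0 := by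
    apply supp_half
    rw [hP1, hn _ (by omega), hn _ (by omega), hsq, ENNReal.ofReal_pow (hpos _ (by omega)).le]
  have hPne : measPow a (k + 1) ≠ 0 := by
    intro h0
    have e1 := hn (k + 1) (by omega)
    rw [h0] at e1
    simp only [VectorMeasure.variation_zero, Measure.coe_zero, Pi.zero_apply] at e1
    have := ENNReal.ofReal_pos.2 (hpos (k + 1) (by omega))
    rw [← e1] at this
    exact lt_irrefl _ this
  have hkey := key_step hc hhalf hane (k := k) (by rw [← measPow_eq ha]; exact hPhalf)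
    (by rw [← measPow_eq ha]; exact hPne) (-(ξ * Complex.I))
  rw [← measPow_eq ha] at hkey
  have hle := LC_norm_le (c := measPow a (k + 1)) ξ
  rw [← hkey, norm_pow, Measure.real, hn _ (by omega),
    ENNReal.toReal_ofReal (hpos _ (by omega)).le] at hle
  have h3 := hN (k + 1) hnN
  have h4 : ‖LC a (-(ξ * Complex.I))‖ ≤ ω (k + 1) ^ (1 / ((k + 1 : ℕ) : ℝ)) := by
    rw [← Real.pow_rpow_inv_natCast (norm_nonneg (LC a (-(ξ * Complex.I)))) (Nat.succ_ne_zero k),
      one_div]
    exact Real.rpow_le_rpow (by positivity) hle (by positivity)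
  exact absurd h3 (not_lt.2 h4)

def toMeas (f : ℝ → ℂ) : ComplexMeasure ℝ := volume.withDensityᵥ ((Ioo (0 : ℝ) 1).indicator f)

lemma toMeas_restrict {f : ℝ → ℂ} (hf : IntegrableOn f (Ioo 0 1)) :
    (toMeas f).restrict (Ioo 0 1) = toMeas f := by
  have hF : Integrable ((Ioo (0 : ℝ) 1).indicator f) := (integrable_indicator_iff measurableSet_Ioo).2 hf
  ext E hE
  rw [VectorMeasure.restrict_apply _ measurableSet_Ioo hE, toMeas,
    withDensityᵥ_apply hF (hE.inter measurableSet_Ioo), withDensityᵥ_apply hF hE,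
    setIntegral_indicator measurableSet_Ioo, setIntegral_indicator measurableSet_Ioo]
  congr 2
  rw [inter_assoc, inter_self]

lemma toMeas_variation {f : ℝ → ℂ} (hf : IntegrableOn f (Ioo 0 1)) :
    (toMeas f).variation univ = ENNReal.ofReal (∫ t in (0 : ℝ)..1, ‖f t‖) := by
  have hF : Integrable ((Ioo (0 : ℝ) 1).indicator f) := (integrable_indicator_iff measurableSet_Ioo).2 hf
  rw [toMeas, Measure.variation_withDensityᵥ hF, withDensity_apply _ MeasurableSet.univ,
    Measure.restrict_univ, ← ofReal_integral_norm_eq_lintegral_enorm hF,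
    intervalIntegral.integral_of_le zero_le_one, integral_Ioc_eq_integral_Ioo,
    ← integral_indicator measurableSet_Ioo]
  congr 2
  ext t
  by_cases ht : t ∈ Ioo (0 : ℝ) 1 <;> simp [ht]

lemma funConv_eq {f g : ℝ → ℂ} {t : ℝ} (ht : t ∈ Ioo (0 : ℝ) 1) :
    funConv f g t = convolution ((Ioo (0 : ℝ) 1).indicator g) ((Ioo (0 : ℝ) 1).indicator f)
      mulC volume t := by
  unfold funConv convolution
  rw [intervalIntegral.integral_of_le ht.1.le, integral_Ioc_eq_integral_Ioo,
    ← integral_indicator measurableSet_Ioo]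
  congr 1
  ext s
  simp only [ContinuousLinearMap.mul_apply']
  by_cases hs : s ∈ Ioo 0 t
  · rw [indicator_of_mem hs, indicator_of_mem, indicator_of_mem, mul_comm]
    · exact ⟨by linarith [hs.2], by linarith [hs.1, ht.2]⟩
    · exact ⟨hs.1, hs.2.trans ht.2⟩
  · rw [indicator_of_notMem hs]
    by_cases h1 : s ∈ Ioo (0 : ℝ) 1
    · have h2 : t - s ∉ Ioo (0 : ℝ) 1 := fun h => hs ⟨h1.1, by linarith [h.1]⟩
      rw [indicator_of_notMem h2, mul_zero]
    · rw [indicator_of_notMem h1, zero_mul]

lemma trunc_density {f g : ℝ → ℂ} (hf : IntegrableOn f (Ioo 0 1)) (hg : IntegrableOn g (Ioo 0 1)) :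
    IntegrableOn (funConv f g) (Ioo 0 1) ∧
      truncConv (toMeas f) (toMeas g) = toMeas (funConv f g) := by
  set F := (Ioo (0 : ℝ) 1).indicator f with hFdef
  set G := (Ioo (0 : ℝ) 1).indicator g with hGdef
  have hF : Integrable F := (integrable_indicator_iff measurableSet_Ioo).2 hf
  have hG : Integrable G := (integrable_indicator_iff measurableSet_Ioo).2 hg
  have hconv : Integrable (convolution G F mulC volume) := hG.integrable_convolution mulC hF
  have h1 : IntegrableOn (funConv f g) (Ioo 0 1) := by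
    refine hconv.integrableOn.congr_fun (fun t ht => (funConv_eq ht).symm) measurableSet_Ioo
  refine ⟨h1, ?_⟩
  have h1' : Integrable ((Ioo (0 : ℝ) 1).indicator (funConv f g)) :=
    (integrable_indicator_iff measurableSet_Ioo).2 h1
  have hFG : Integrable (fun p : ℝ × ℝ => F p.1 * G p.2) (volume.prod volume) := hF.mul_prod hG
  have hprod : (toMeas f).prod (toMeas g) mulC =
      ((volume : Measure ℝ).prod (volume : Measure ℝ)).withDensityᵥ (fun p => F p.1 * G p.2) := by
    apply VectorMeasure.prod_eq_of_forall_apply_prod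
    intro s t hs ht
    rw [withDensityᵥ_apply hFG (hs.prod ht), setIntegral_prod_mul,
      ← withDensityᵥ_apply hF hs, ← withDensityᵥ_apply hG ht]
    rfl
  ext E hE
  have hE' : MeasurableSet (E ∩ Ioo 0 1) := hE.inter measurableSet_Ioo
  have hadd : Measurable (fun p : ℝ × ℝ => p.1 + p.2) := by fun_prop
  rw [truncConv, VectorMeasure.restrict_apply _ measurableSet_Ioo hE,
    VectorMeasure.map_apply _ hadd hE', hprod, withDensityᵥ_apply hFG (hadd hE'),
    toMeas, withDensityᵥ_apply h1' hE, setIntegral_indicator measurableSet_Ioo,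
    setIntegral_congr_fun hE' (fun t ht => funConv_eq ht.2)]
  -- ∫ over preimage = ∫ over E' of convolution
  rw [← integral_indicator (hadd hE'), ← integral_indicator hE']
  have hint : Integrable (((fun p : ℝ × ℝ => p.1 + p.2) ⁻¹' (E ∩ Ioo 0 1)).indicator
      (fun p : ℝ × ℝ => F p.1 * G p.2)) (volume.prod volume) := hFG.indicator (hadd hE')
  rw [integral_prod_symm _ hint]
  have e1 : ∀ y : ℝ, ∫ x : ℝ, ((fun p : ℝ × ℝ => p.1 + p.2) ⁻¹' (E ∩ Ioo 0 1)).indicator
      (fun p : ℝ × ℝ => F p.1 * G p.2) (x, y) =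
      ∫ t : ℝ, (E ∩ Ioo 0 1).indicator (fun t => G y * F (t - y)) t := by
    intro y
    rw [← integral_sub_right_eq_self _ y]
    congr 1
    ext t
    by_cases ht : t ∈ E ∩ Ioo 0 1
    · rw [indicator_of_mem ht, indicator_of_mem]
      · simp only; ring
      · simpa using ht
    · rw [indicator_of_notMem ht, indicator_of_notMem]
      simpa using ht
  simp_rw [e1]
  have hint2 : Integrable (fun p : ℝ × ℝ => (E ∩ Ioo 0 1).indicator
      (fun t => G p.2 * F (t - p.2)) p.1) (volume.prod volume) := by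
    have h3 : Integrable (fun p : ℝ × ℝ => mulC (G p.2) (F (p.1 - p.2))) (volume.prod volume) :=
      hG.convolution_integrand mulC hF
    have h4 := h3.indicator (measurableSet_preimage measurable_fst hE')
    refine h4.congr ?_
    filter_upwards with p
    by_cases ht : p.1 ∈ E ∩ Ioo 0 1
    · rw [indicator_of_mem ht, indicator_of_mem (by simpa using ht)]; rfl
    · rw [indicator_of_notMem ht, indicator_of_notMem (by simpa using ht)]
  rw [← integral_prod_symm (fun p : ℝ × ℝ => (E ∩ Ioo 0 1).indicator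
      (fun t => G p.2 * F (t - p.2)) p.1) hint2, integral_prod _ hint2]
  congr 1
  ext t
  by_cases ht : t ∈ E ∩ Ioo 0 1
  · simp only [indicator_of_mem ht]; rfl
  · simp only [indicator_of_notMem ht, integral_zero]

lemma toMeas_pow {f : ℝ → ℂ} (hf : IntegrableOn f (Ioo 0 1)) (n : ℕ) :
    IntegrableOn (funPow f (n + 1)) (Ioo 0 1) ∧
      measPow (toMeas f) (n + 1) = toMeas (funPow f (n + 1)) := by
  induction n with
  | zero => exact ⟨hf, rfl⟩
  | succ n ih =>
    have h := trunc_density hf ih.1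
    refine ⟨h.1, ?_⟩
    change truncConv (toMeas f) (measPow (toMeas f) (n + 1)) = toMeas (funConv f (funPow f (n + 1)))
    rw [ih.2, h.2]


/-! ### The sequence -/

/-- the roots `r_n = 1 / (⌊log_4 n⌋ + 1)` -/
def rt (n : ℕ) : ℝ := 1 / ((Nat.log 4 n : ℝ) + 1)

lemma rt_pos (n : ℕ) : 0 < rt n := by unfold rt; positivity

lemma rt_anti {m n : ℕ} (h : m ≤ n) : rt n ≤ rt m := by
  unfold rt
  apply one_div_le_one_div_of_le (by positivity)
  have : Nat.log 4 m ≤ Nat.log 4 n := Nat.log_mono_right h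
  have h2 : (Nat.log 4 m : ℝ) ≤ (Nat.log 4 n : ℝ) := by exact_mod_cast this
  linarith

lemma root_eq {n : ℕ} (hn : 1 ≤ n) : (rt n ^ n) ^ (1 / (n : ℝ)) = rt n := by
  rw [one_div, Real.pow_rpow_inv_natCast (rt_pos n).le (by omega)]

/-- **Main result.** There is a sequence satisfying (i)-(iv) (with all terms positive) which is
neither the sequence of norms of the powers of an element of `M(0,1)`, nor the sequence of norms
of the powers of an element of `L^1[0,1]`. -/
theorem result : ∃ ω : ℕ → ℝ,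
    (∀ n, 1 ≤ n → 0 < ω n) ∧
    (∀ m n, 1 ≤ m → 1 ≤ n → ω (m + n) ≤ ω m * ω n) ∧
    Tendsto (fun n : ℕ => ω n ^ (1 / (n : ℝ))) atTop (𝓝 0) ∧
    (∀ m n, 1 ≤ m → m ≤ n → ω n ^ (1 / (n : ℝ)) ≤ ω m ^ (1 / (m : ℝ))) ∧
    ¬ IsNormSeqMeasure ω ∧ ¬ IsNormSeqL1 ω := by
  have hroot : Tendsto (fun n : ℕ => (rt n ^ n) ^ (1 / (n : ℝ))) atTop (𝓝 0) := by
    have h1 : Tendsto rt atTop (𝓝 0) := by
      have h2 : Tendsto (fun n : ℕ => Nat.log 4 n) atTop atTop := by
        apply tendsto_atTop_atTop.2
        intro b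
        refine ⟨4 ^ b, fun n hn => ?_⟩
        calc b = Nat.log 4 (4 ^ b) := (Nat.log_pow (by norm_num) b).symm
          _ ≤ Nat.log 4 n := Nat.log_mono_right hn
      have h3 : Tendsto (fun n : ℕ => (Nat.log 4 n : ℝ) + 1) atTop atTop :=
        tendsto_atTop_add_const_right _ _ (tendsto_natCast_atTop_atTop.comp h2)
      exact h3.inv_tendsto_atTop.congr (fun n => by simp [rt])
    refine h1.congr' ?_
    filter_upwards [eventually_ge_atTop 1] with n hn
    rw [root_eq hn]
  have hmeas : ¬ IsNormSeqMeasure (fun n => rt n ^ n) := by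
    rintro ⟨a, ha, hn⟩
    refine meas_main ha hn (fun n _ => pow_pos (rt_pos n) n) ?_ ?_ hroot
    · have e1 : rt 1 = 1 := by simp [rt]
      have e2 : rt 2 = 1 := by
        have : Nat.log 4 2 = 0 := Nat.log_of_lt (by norm_num)
        simp [rt, this]
      simp [e1, e2]
    · intro N
      refine ⟨4 ^ N, (Nat.lt_pow_self (by norm_num)).le, Nat.one_le_pow _ _ (by norm_num), ?_⟩
      have e1 : Nat.log 4 (2 * 4 ^ N) = N := by
        rw [Nat.log_eq_iff (Or.inr ⟨by norm_num, by positivity⟩)]
        constructor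
        · have : 0 < 4 ^ N := by positivity
          omega
        · rw [pow_succ]
          have : 0 < 4 ^ N := by positivity
          omega
      have e2 : Nat.log 4 (4 ^ N) = N := Nat.log_pow (by norm_num) N
      simp only [rt, e1, e2]
      rw [← pow_mul]
      congr 1
      ring
  refine ⟨fun n => rt n ^ n, fun n _ => pow_pos (rt_pos n) n, ?_, hroot, ?_, hmeas, ?_⟩
  · intro m n hm hn
    simp only
    rw [pow_add]
    apply mul_le_mul
    · exact pow_le_pow_left₀ (rt_pos _).le (rt_anti (by omega)) _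
    · exact pow_le_pow_left₀ (rt_pos _).le (rt_anti (by omega)) _
    · exact pow_nonneg (rt_pos _).le _
    · exact pow_nonneg (rt_pos _).le _
  · intro m n hm hmn
    simp only
    rw [root_eq hm, root_eq (hm.trans hmn)]
    exact rt_anti hmn
  · rintro ⟨f, hf, hn⟩
    apply hmeas
    have hf' : IntegrableOn f (Ioo 0 1) := hf.mono_set Ioo_subset_Icc_self
    refine ⟨toMeas f, toMeas_restrict hf', fun n hn1 => ?_⟩
    obtain ⟨k, rfl⟩ : ∃ k, n = k + 1 := ⟨n - 1, by omega⟩
    have h := toMeas_pow hf' k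
    rw [h.2, toMeas_variation h.1, hn _ hn1]

end

end Pool.Agent.Results.MP_81f94f_an.FlatRunsNotNormSequence
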